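import Pool.Agent.Helper20.R.Defs
import Pool.Agent.Helper7.LS.ArConc

/-!
# R0a: the sets `S K u e t l` and their lengths `om K u e t l`
-/

set_option autoImplicit false
namespace Pool.Agent.Helper20.R
open MeasureTheory Set
open Pool.Agent.Helper59.Pack Pool.Agent.Helper69.MD Pool.Agent.Helper7.LS

variable {K : Set E3} {u e : P2}

theorem lev_compact (hK : IsConvexBody K) (t : ℝ) : IsCompact (lev K t) := by
  rcases le_or_gt 0 t with h | h
  · exact Pool.Agent.Helper7.LS.lev_compact hK h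
  · have e : lev K t = proj K := by
      ext y
      exact ⟨fun h => h.1, fun hy => ⟨hy, h.le.trans (len_nonneg K y)⟩⟩
    rw [e]
    exact proj_compact hK

theorem lev_convex (hK : IsConvexBody K) (t : ℝ) : Convex ℝ (lev K t) :=
  Pool.Agent.Helper7.LS.lev_convex hK t

private lemma lev_mix32 (hK : IsConvexBody K) {t t' a b : ℝ} {y y' : P2} (hy : y ∈ lev K t)
    (hy' : y' ∈ lev K t') (ha : 0 ≤ a) (hb : 0 ≤ b) (hab : a + b = 1) :
    a • y + b • y' ∈ lev K (a * t + b * t') := by
  refine ⟨(proj_convex hK) hy.1 hy'.1 ha hb hab, le_trans ?_ ((len_concave hK).2 hy.1 hy'.1 ha hb hab)⟩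
  simp only [smul_eq_mul]
  exact add_le_add (mul_le_mul_of_nonneg_left hy.2 ha) (mul_le_mul_of_nonneg_left hy'.2 hb)

private lemma ch_mix32 (u e : P2) (a b X Y X' Y' : ℝ) :
    a • ch u e X Y + b • ch u e X' Y' = ch u e (a * X + b * X') (a * Y + b * Y') := by
  ext i
  simp only [ch, Pi.add_apply, Pi.smul_apply, smul_eq_mul]
  ring

theorem S_mix (hK : IsConvexBody K) {t l t' l' a b Y Y' : ℝ} (hY : Y ∈ S K u e t l)
    (hY' : Y' ∈ S K u e t' l') (ha : 0 ≤ a) (hb : 0 ≤ b) (hab : a + b = 1) :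
    a * Y + b * Y' ∈ S K u e (a * t + b * t') (a * l + b * l') := by
  obtain ⟨X, h1, h2⟩ := hY
  obtain ⟨X', h1', h2'⟩ := hY'
  refine ⟨a * X + b * X', ?_, ?_⟩
  · rw [← ch_mix32]
    exact lev_mix32 hK h1 h1' ha hb hab
  · have h := lev_mix32 hK h2 h2' ha hb hab
    rw [ch_mix32] at h
    have e1 : a * X + b * X' + (a * l + b * l') = a * (X + l) + b * (X' + l') := by ring
    rw [e1]
    exact h

theorem S_convex (hK : IsConvexBody K) (t l : ℝ) : Convex ℝ (S K u e t l) := by
  intro Y hY Y' hY' a b ha hb hab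
  have h := S_mix hK hY hY' ha hb hab
  have e1 : a * t + b * t = t := by rw [← add_mul, hab, one_mul]
  have e2 : a * l + b * l = l := by rw [← add_mul, hab, one_mul]
  rw [e1, e2] at h
  exact h

private lemma det_ch32 (hue : det2 u e = 1) (X Y : ℝ) : det2 u (ch u e X Y) = Y := by
  have : det2 u (ch u e X Y) = Y * det2 u e := by
    simp only [ch, det2, Pi.add_apply, Pi.smul_apply, smul_eq_mul]
    ring
  rw [this, hue, mul_one]

private lemma ch_det32 (hue : det2 u e = 1) (y : P2) : ch u e (det2 y e) (det2 u y) = y := by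
  unfold det2 at hue
  ext i
  fin_cases i
  · simp only [ch, det2, Pi.add_apply, Pi.smul_apply, smul_eq_mul, Fin.zero_eta]
    linear_combination y 0 * hue
  · simp only [ch, det2, Pi.add_apply, Pi.smul_apply, smul_eq_mul, Fin.mk_one]
    linear_combination y 1 * hue

private lemma ch_add32 (X Y l : ℝ) : ch u e (X + l) Y = ch u e X Y + l • u := by
  ext i
  simp only [ch, Pi.add_apply, Pi.smul_apply, smul_eq_mul]
  ring

theorem S_compact (hK : IsConvexBody K) (hue : det2 u e = 1) (t l : ℝ) : IsCompact (S K u e t l) := by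
  have e1 : S K u e t l = (fun y => det2 u y) '' (lev K t ∩ (fun y => y + l • u) ⁻¹' (lev K t)) := by
    ext Y
    constructor
    · rintro ⟨X, h1, h2⟩
      exact ⟨ch u e X Y, ⟨h1, by rw [mem_preimage, ← ch_add32]; exact h2⟩, det_ch32 hue X Y⟩
    · rintro ⟨y, ⟨h1, h2⟩, rfl⟩
      refine ⟨det2 y e, ?_, ?_⟩
      · rw [ch_det32 hue]; exact h1
      · rw [ch_add32, ch_det32 hue]; exact h2
  rw [e1]
  refine IsCompact.image ((lev_compact hK t).inter_right ?_) ?_
  · exact (lev_compact hK t).isClosed.preimage (by fun_prop)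
  · unfold det2
    fun_prop

theorem S_anti (hK : IsConvexBody K) {t t' l l' : ℝ} (ht : t ≤ t') (hl : 0 ≤ l) (hll : l ≤ l') :
    S K u e t' l' ⊆ S K u e t l := by
  rintro Y ⟨X, h1, h2⟩
  refine ⟨X, ⟨h1.1, ht.trans h1.2⟩, ?_⟩
  suffices h : ch u e (X + l) Y ∈ lev K t' from ⟨h.1, ht.trans h.2⟩
  rcases (hl.trans hll).eq_or_lt with h0 | h0
  · have e1 : l = 0 := by linarith
    rw [e1, add_zero]
    exact h1
  · have hr0 : 0 ≤ l / l' := div_nonneg hl h0.le
    have hr1 : 0 ≤ 1 - l / l' := by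
      have := div_le_one_of_le₀ hll h0.le
      linarith
    have h := lev_convex hK t' h1 h2 hr1 hr0 (by ring)
    rw [ch_mix32] at h
    have e1 : (1 - l / l') * X + l / l' * (X + l') = X + l := by
      field_simp
      ring
    have e2 : (1 - l / l') * Y + l / l' * Y = Y := by ring
    rwa [e1, e2] at h

theorem S_ne_top (hK : IsConvexBody K) (hue : det2 u e = 1) (t l : ℝ) : volume (S K u e t l) ≠ ⊤ :=
  (S_compact hK hue t l).measure_lt_top.ne

theorem om_nonneg (t l : ℝ) : 0 ≤ om K u e t l := ENNReal.toReal_nonneg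

theorem om_anti (hK : IsConvexBody K) (hue : det2 u e = 1) {t t' l l' : ℝ} (ht : t ≤ t') (hl : 0 ≤ l)
    (hll : l ≤ l') : om K u e t' l' ≤ om K u e t l :=
  ENNReal.toReal_mono (S_ne_top hK hue t l) (measure_mono (S_anti hK ht hl hll))

/-- `S` is a closed interval and `om` its length. -/
theorem S_Icc (hK : IsConvexBody K) (hue : det2 u e = 1) {t l : ℝ} (hne : (S K u e t l).Nonempty) :
    ∃ m M : ℝ, m ≤ M ∧ S K u e t l = Icc m M ∧ om K u e t l = M - m := by
  have hc := S_compact hK hue t l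
  have hm := hc.sInf_mem hne
  have hM := hc.sSup_mem hne
  have hle : sInf (S K u e t l) ≤ sSup (S K u e t l) := csInf_le hc.bddBelow hM
  have e1 : S K u e t l = Icc (sInf (S K u e t l)) (sSup (S K u e t l)) := by
    apply Subset.antisymm
    · intro Y hY
      exact ⟨csInf_le hc.bddBelow hY, le_csSup hc.bddAbove hY⟩
    · exact (S_convex hK t l).ordConnected.out hm hM
  refine ⟨_, _, hle, e1, ?_⟩
  unfold om
  rw [congrArg volume e1, Real.volume_Icc, ENNReal.toReal_ofReal (by linarith)]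

theorem om_mix (hK : IsConvexBody K) (hue : det2 u e = 1) {t l t' l' a b : ℝ}
    (h : (S K u e t l).Nonempty) (h' : (S K u e t' l').Nonempty) (ha : 0 ≤ a) (hb : 0 ≤ b) (hab : a + b = 1) :
    a * om K u e t l + b * om K u e t' l' ≤ om K u e (a * t + b * t') (a * l + b * l') := by
  obtain ⟨m, M, hmM, hS, ho⟩ := S_Icc hK hue h
  obtain ⟨m', M', hmM', hS', ho'⟩ := S_Icc hK hue h'
  have hm : m ∈ S K u e t l := by rw [hS]; exact left_mem_Icc.2 hmM
  have hM : M ∈ S K u e t l := by rw [hS]; exact right_mem_Icc.2 hmM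
  have hm' : m' ∈ S K u e t' l' := by rw [hS']; exact left_mem_Icc.2 hmM'
  have hM' : M' ∈ S K u e t' l' := by rw [hS']; exact right_mem_Icc.2 hmM'
  have h1 := S_mix hK hm hm' ha hb hab
  have h2 := S_mix hK hM hM' ha hb hab
  have hsub : Icc (a * m + b * m') (a * M + b * M') ⊆ S K u e (a * t + b * t') (a * l + b * l') :=
    (S_convex hK _ _).ordConnected.out h1 h2
  have h3 := ENNReal.toReal_mono (S_ne_top hK hue _ _) (measure_mono (μ := volume) hsub)
  have h4 : a * m + b * m' ≤ a * M + b * M' :=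
    add_le_add (mul_le_mul_of_nonneg_left hmM ha) (mul_le_mul_of_nonneg_left hmM' hb)
  rw [Real.volume_Icc, ENNReal.toReal_ofReal (by linarith)] at h3
  rw [ho, ho']
  calc a * (M - m) + b * (M' - m') = a * M + b * M' - (a * m + b * m') := by ring
    _ ≤ _ := h3

theorem Dm_convex (hK : IsConvexBody K) : Convex ℝ (Dm K u e) := by
  rintro p ⟨h1, h2, Y, hY⟩ q ⟨h1', h2', Y', hY'⟩ a b ha hb hab
  refine ⟨?_, ?_, ?_⟩
  · simp only [Prod.fst_add, Prod.smul_fst, smul_eq_mul]
    positivity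
  · simp only [Prod.snd_add, Prod.smul_snd, smul_eq_mul]
    positivity
  · exact ⟨_, S_mix hK hY hY' ha hb hab⟩

theorem om_concave (hK : IsConvexBody K) (hue : det2 u e = 1) :
    ConcaveOn ℝ (Dm K u e) (fun p => om K u e p.1 p.2) := by
  refine ⟨Dm_convex hK, ?_⟩
  rintro p ⟨-, -, hp⟩ q ⟨-, -, hq⟩ a b ha hb hab
  exact om_mix hK hue hp hq ha hb hab

end Pool.Agent.Helper20.R
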